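import Pool.Agent.H.MP_fb4947_gt.B

namespace Pool.Agent.Results.MP_fb4947_gt.Yes

open Pool.Agent.H.MP_fb4947_gt

theorem result (m : ℕ) (d : Fin m → ℕ) :
    ∃ (V : Type) (_ : Fintype V) (G : Digraph V) (c : V → ℕ),
      (∀ v, ¬ G.Adj v v) ∧ (SimpleGraph.fromRel G.Adj).Connected ∧
      Nonempty (ContinuousMap.HomotopyEquiv (aval G c) (wedge d)) :=
  main d

end Pool.Agent.Results.MP_fb4947_gt.Yes
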